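import Pool.Agent.KS6_1.ModTwo.Act

set_option autoImplicit false

/-!
# Isotopies and finite groups
-/

namespace Pool.Agent.KS6_1.ModTwo

open Topology Matrix
open Pool.Agent.Results.MP_365cb5_gt.GenusTwo

/-- The homeomorphism `f` is isotopic to the identity. -/
def IsotopicToId {Y : Type} [TopologicalSpace Y] (f : Y ≃ₜ Y) : Prop :=
  ∃ H : unitInterval → (Y ≃ₜ Y), Continuous (fun p : unitInterval × Y => H p.1 p.2) ∧
    H 0 = f ∧ H 1 = 1

theorem IsotopicToId.homotopic {Y : Type} [TopologicalSpace Y] {f : Y ≃ₜ Y}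
    (h : IsotopicToId f) : ContinuousMap.Homotopic (f : C(Y, Y)) (ContinuousMap.id Y) := by
  obtain ⟨H, hc, h0, h1⟩ := h
  refine ⟨⟨⟨fun p => H p.1 p.2, hc⟩, fun x => ?_, fun x => ?_⟩⟩
  · change H 0 x = f x
    rw [h0]
  · change H 1 x = x
    rw [h1]
    rfl

/-- A path from `g` to `1` in `GL₂(ℂ)`. -/
theorem exists_path_GL (g : (Matrix (Fin 2) (Fin 2) ℂ)ˣ) :
    ∃ γ : unitInterval → (Matrix (Fin 2) (Fin 2) ℂ)ˣ, Continuous γ ∧ γ 0 = g ∧ γ 1 = 1 := by
  set A : Matrix (Fin 2) (Fin 2) ℂ := g.val with hA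
  let m : ℂ → Matrix (Fin 2) (Fin 2) ℂ := fun z => (1 - z) • (1 : Matrix (Fin 2) (Fin 2) ℂ) + z • A
  let P : Polynomial ℂ := (1 - Polynomial.X + Polynomial.C (A 0 0) * Polynomial.X) *
    (1 - Polynomial.X + Polynomial.C (A 1 1) * Polynomial.X) -
    Polynomial.C (A 0 1 * A 1 0) * Polynomial.X ^ 2
  have hP : ∀ z, P.eval z = (m z).det := by
    intro z
    simp only [P, m, Matrix.det_fin_two, Polynomial.eval_sub, Polynomial.eval_mul,
      Polynomial.eval_add, Polynomial.eval_one, Polynomial.eval_X, Polynomial.eval_C,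
      Polynomial.eval_pow, Matrix.add_apply, Matrix.smul_apply, Matrix.one_apply_eq, smul_eq_mul]
    rw [Matrix.one_apply_ne (by decide : (0 : Fin 2) ≠ 1),
      Matrix.one_apply_ne (by decide : (1 : Fin 2) ≠ 0)]
    ring
  have hP0 : P ≠ 0 := by
    intro h
    have h1 := hP 0
    rw [h] at h1
    simp [m] at h1
  have hm1 : m 1 = A := by simp [m]
  have hm0 : m 0 = 1 := by simp [m]
  set Z : Set ℂ := {z | (m z).det = 0} with hZ
  have hZf : Z.Finite := by
    refine (P.roots.toFinset.finite_toSet).subset ?_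
    intro z hz
    have hz' : (m z).det = 0 := hz
    simp only [Finset.mem_coe, Multiset.mem_toFinset]
    rw [Polynomial.mem_roots hP0, Polynomial.IsRoot, hP z, hz']
  have hpc := hZf.countable.isPathConnected_compl_of_one_lt_rank (E := ℂ)
    (by rw [Complex.rank_real_complex]; exact Cardinal.one_lt_two)
  have hA0 : A.det ≠ 0 := by
    intro h
    have h1 : IsUnit A.det := (Matrix.isUnit_iff_isUnit_det A).1 g.isUnit
    exact h1.ne_zero h
  have h1Z : (1 : ℂ) ∈ Zᶜ := by
    intro h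
    have : (m 1).det = 0 := h
    rw [hm1] at this
    exact hA0 this
  have h0Z : (0 : ℂ) ∈ Zᶜ := by
    intro h
    have : (m 0).det = 0 := h
    rw [hm0] at this
    simp at this
  obtain ⟨p, hp⟩ := hpc.joinedIn 1 h1Z 0 h0Z
  have hd : ∀ t, (m (p t)).det ≠ 0 := fun t h => hp t h
  have hmc : Continuous fun t => m (p t) := by
    refine Continuous.add ?_ ?_
    · exact (continuous_const.sub p.continuous).smul continuous_const
    · exact p.continuous.smul continuous_const
  have hdc : Continuous fun t => (m (p t)).det := hmc.matrix_det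
  refine ⟨fun t => ⟨m (p t), ((m (p t)).det)⁻¹ • (m (p t)).adjugate, ?_, ?_⟩, ?_, ?_, ?_⟩
  · rw [Matrix.mul_smul, Matrix.mul_adjugate, smul_smul, inv_mul_cancel₀ (hd t), one_smul]
  · rw [Matrix.smul_mul, Matrix.adjugate_mul, smul_smul, inv_mul_cancel₀ (hd t), one_smul]
  · rw [Units.continuous_iff]
    exact ⟨hmc, (hdc.inv₀ hd).smul hmc.matrix_adjugate⟩
  · apply Units.ext
    change m (p 0) = g
    rw [p.source, hm1]
  · apply Units.ext
    change m (p 1) = 1
    rw [p.target, hm0]

/-- A path from `s` to `1` in `ℂˣ`. -/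
theorem exists_path_units (s : ℂˣ) :
    ∃ γ : unitInterval → ℂˣ, Continuous γ ∧ γ 0 = s ∧ γ 1 = 1 := by
  refine ⟨fun t => Units.mk0 (Complex.exp ((1 - ((t : ℝ) : ℂ)) * Complex.log s))
    (Complex.exp_ne_zero _), ?_, ?_, ?_⟩
  · rw [Units.isEmbedding_val₀.continuous_iff]
    change Continuous fun t : unitInterval => Complex.exp ((1 - ((t : ℝ) : ℂ)) * Complex.log s)
    fun_prop
  · apply Units.ext
    simp [Complex.exp_log s.ne_zero]
  · apply Units.ext
    simp

/-- All maps `rho k` are isotopic to the identity. -/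
theorem rho_isotopic (k : K) : IsotopicToId (rho k) := by
  obtain ⟨γ, hγ, h0, h1⟩ := exists_path_GL k.1
  obtain ⟨δ, hδ, h2, h3⟩ := exists_path_units k.2
  refine ⟨fun t => rho (γ t, δ t), ?_, ?_, ?_⟩
  · have h : Continuous fun p : unitInterval × M2 => (((γ p.1, δ p.1), p.2) : K × M2) :=
      ((hγ.comp continuous_fst).prodMk (hδ.comp continuous_fst)).prodMk continuous_snd
    exact continuous_rho.comp h
  · change rho (γ 0, δ 0) = rho k
    rw [h0, h2]
  · change rho (γ 1, δ 1) = 1
    rw [h1, h3]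
    exact rho.map_one

/-- The diagonal torus. -/
noncomputable def torus : (Fin 3 → ℂˣ) →* K where
  toFun f := (⟨Matrix.diagonal ![(f 0 : ℂ), f 1], Matrix.diagonal ![((f 0)⁻¹ : ℂˣ), ((f 1)⁻¹ : ℂˣ)],
    by
      rw [Matrix.diagonal_mul_diagonal, ← Matrix.diagonal_one]
      congr 1
      funext i
      fin_cases i <;> simp,
    by
      rw [Matrix.diagonal_mul_diagonal, ← Matrix.diagonal_one]
      congr 1
      funext i
      fin_cases i <;> simp⟩, f 2)
  map_one' := by
    refine Prod.ext (Units.ext ?_) rfl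
    change Matrix.diagonal ![((1 : ℂˣ) : ℂ), ((1 : ℂˣ) : ℂ)] = 1
    rw [← Matrix.diagonal_one]
    congr 1
    funext i
    fin_cases i <;> simp
  map_mul' f g := by
    refine Prod.ext (Units.ext ?_) rfl
    change Matrix.diagonal ![((f 0 * g 0 : ℂˣ) : ℂ), ((f 1 * g 1 : ℂˣ) : ℂ)] =
      Matrix.diagonal ![(f 0 : ℂ), f 1] * Matrix.diagonal ![(g 0 : ℂ), g 1]
    rw [Matrix.diagonal_mul_diagonal]
    congr 1
    funext i
    fin_cases i <;> simp

theorem torus_injective : Function.Injective torus := by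
  intro f g h
  have h1 : Matrix.diagonal ![(f 0 : ℂ), f 1] = Matrix.diagonal ![(g 0 : ℂ), g 1] :=
    congrArg (fun k : K => (k.1 : Matrix (Fin 2) (Fin 2) ℂ)) h
  have h2 : f 2 = g 2 := congrArg Prod.snd h
  have h3 := Matrix.diagonal_injective h1
  funext i
  fin_cases i
  · exact Units.ext (congrFun h3 0)
  · exact Units.ext (congrFun h3 1)
  · exact h2

/-- A finite abelian group generated by three elements embeds in the torus. -/
theorem exists_embedding (A : Type) [CommGroup A] [Finite A] (g : Fin 3 → A)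
    (hg : Subgroup.closure (Set.range g) = ⊤) :
    ∃ σ : A →* (Fin 3 → ℂˣ), Function.Injective σ := by
  obtain ⟨e⟩ := CommGroup.monoidHom_mulEquiv_of_hasEnoughRootsOfUnity A ℂ
  let τ : (A →* ℂˣ) →* (Fin 3 → ℂˣ) :=
    { toFun := fun χ i => χ (g i)
      map_one' := rfl
      map_mul' := fun _ _ => rfl }
  refine ⟨τ.comp e.symm.toMonoidHom, ?_⟩
  have hτ : Function.Injective τ := by
    intro χ ψ h
    have h1 : Set.EqOn χ ψ (Set.range g) := by
      rintro _ ⟨i, rfl⟩
      exact congrFun h i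
    exact MonoidHom.eq_of_eqOn_dense hg h1
  exact hτ.comp e.symm.injective

end Pool.Agent.KS6_1.ModTwo
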